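import Pool.Agent.H81.FE.Family
import Pool.Agent.H81.FB.Cor

set_option autoImplicit false

/-!
# Extending automorphisms of closures implies tameness
-/

open FirstOrder FirstOrder.Language Cardinal

namespace Pool.Agent.H81.FE

universe w

open Pool.Agent.H85.AECT Pool.Agent.H85.AECT.AEC Pool.Agent.H81.FB

variable {L : FirstOrder.Language.{w, w}} {K : AEC L}

/-- Let `C₁`, `C₂` be the closures of `M₁ ∪ {a}` and `M₂ ∪ {a}`. Every automorphism of `C₁` which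
fixes all elements of `C₁` in `M₁ ∪ {a} ∪ A` extends to an automorphism of `C₂` which fixes
`M₂ ∪ {a}` pointwise. -/
def Extendable (K : AEC L) {N : Type w} [L.Structure N] (a : N) (A : Set N)
    (M₁ M₂ : L.Substructure N) : Prop :=
  ∀ g ∈ Auts (K.cl (insert a (M₁ : Set N))) (insert a (M₁ : Set N) ∪ A),
    ∃ g' ∈ Auts (K.cl (insert a (M₂ : Set N))) (insert a (M₂ : Set N)),
      ∀ (x : K.cl (insert a (M₁ : Set N))) (y : K.cl (insert a (M₂ : Set N))),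
        (x : N) = y → (g x : N) = g' y

/-- For all strong substructures `M` of `N` and all `a` in `N` there is a strong substructure
`Q ≤ M` of size less than `κ` such that for all strong substructures `M₁ ≤ M₂` of `N` with
`Q ≤ M₁`, `M₂ ≤ M` and `|M₁| = |M₂| ≥ θ` every automorphism of the closure of `M₁ ∪ {a}` which
fixes `M₁` and the closure of `Q ∪ {a}` pointwise extends to an automorphism of the closure of
`M₂ ∪ {a}` which fixes `M₂ ∪ {a}` pointwise. -/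
def ExtendsOverBase (K : AEC L) (κ θ : Cardinal.{w}) : Prop :=
  ∀ (N : Type w) [L.Structure N] (M : L.Substructure N) (a : N), K.Strong N M →
    ∃ Q : L.Substructure N, K.Strong N Q ∧ Q ≤ M ∧ #Q < κ ∧
      ∀ M₁ M₂ : L.Substructure N, K.Strong N M₁ → K.Strong N M₂ → θ ≤ #M₁ → #M₁ = #M₂ →
        Q ≤ M₁ → M₁ ≤ M₂ → M₂ ≤ M →
          Extendable K a (K.cl (insert a (Q : Set N)) : Set N) M₁ M₂

/-- For all strong substructures `M₁ ≤ M₂` of `N` with `|M₁| = |M₂| ≥ χ` and all `a` in `N` every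
automorphism of the closure of `M₁ ∪ {a}` which fixes `M₁ ∪ {a}` pointwise extends to an
automorphism of the closure of `M₂ ∪ {a}` which fixes `M₂ ∪ {a}` pointwise. -/
def ExtendsFrom (K : AEC L) (χ : Cardinal.{w}) : Prop :=
  ∀ (N : Type w) [L.Structure N] (M₁ M₂ : L.Substructure N) (a : N),
    K.Strong N M₁ → K.Strong N M₂ → χ ≤ #M₁ → #M₁ = #M₂ → M₁ ≤ M₂ → Extendable K a ∅ M₁ M₂

theorem mk_map_eq {M N : Type w} [L.Structure M] [L.Structure N] (f : M ↪[L] N)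
    (Q : L.Substructure M) : #(Q.map f.toHom : L.Substructure N) = #Q :=
  Cardinal.mk_image_eq (f := f) (s := (Q : Set M)) f.injective

section context

variable {M N₁ N₂ : Type w} [L.Structure M] [L.Structure N₁] [L.Structure N₂]
  {f₁ : M ↪[L] N₁} {a₁ : N₁} {f₂ : M ↪[L] N₂} {a₂ : N₂} {χ θ : Cardinal.{w}}

/-- An isomorphism over `Q₀` which extends to all models of size at most `θ` extends to all
models, if automorphisms which fix `X` extend. -/
theorem core (hK : K.HasClosures) (hAP : K.Amalgamation) (hLS : K.LS ≤ θ)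
    (hf₁ : K.StrongEmb f₁) (hf₂ : K.StrongEmb f₂) (Q₀ : L.Substructure M)
    (hQ₀c : #Q₀ = θ) (X : Set N₁) (hX : ∀ x ∈ X, x ∈ K.clOver f₁ a₁ Q₀)
    (e₀ : K.clOver f₁ a₁ Q₀ ≃[L] K.clOver f₂ a₂ Q₀)
    (hbase : ∀ R : L.Substructure M, K.Strong M R → #R ≤ θ → Q₀ ≤ R →
      ∃ e ∈ K.Isos f₁ a₁ f₂ a₂ R, Extends e₀ e)
    (hext : ∀ M₁ M₂ : L.Substructure M, K.Strong M M₁ → K.Strong M M₂ → #M₁ = #M₂ →
      Q₀ ≤ M₁ → M₁ ≤ M₂ →
      ∀ g ∈ Auts (K.clOver f₁ a₁ M₁) (insert a₁ (f₁ '' (M₁ : Set M)) ∪ X),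
        ∃ g' ∈ Auts (K.clOver f₁ a₁ M₂) (insert a₁ (f₁ '' (M₂ : Set M))),
          ∀ (x : K.clOver f₁ a₁ M₁) (y : K.clOver f₁ a₁ M₂), (x : N₁) = y → (g x : N₁) = g' y) :
    ∀ (c : Cardinal.{w}) (R : L.Substructure M), #R = c → K.Strong M R → Q₀ ≤ R →
      ∃ e ∈ K.Isos f₁ a₁ f₂ a₂ R, Extends e₀ e := by
  classical
  intro c
  induction c using WellFoundedLT.induction with
  | ind c ih =>
  intro R hRc hR hQR
  rcases le_or_gt (#R) θ with hle | hlt
  · exact hbase R hR hle hQR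
  have hθ : ℵ₀ ≤ θ := (ls_spec (K := K)).1.trans hLS
  have hBc : #({x : R | (x : M) ∈ Q₀} : Set R) = θ := by
    rw [← hQ₀c]
    apply le_antisymm
    · refine Cardinal.mk_le_of_injective (f := fun x : {x : R | (x : M) ∈ Q₀} =>
        (⟨x.1.1, x.2⟩ : Q₀)) ?_
      intro x y hxy
      apply Subtype.ext
      apply Subtype.ext
      exact congrArg (fun z : Q₀ => (z : M)) hxy
    · refine Cardinal.mk_le_of_injective (f := fun x : Q₀ =>
        (⟨⟨x.1, hQR x.2⟩, x.2⟩ : {x : R | (x : M) ∈ Q₀})) ?_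
      intro x y hxy
      apply Subtype.ext
      exact congrArg (fun z : {x : R | (x : M) ∈ Q₀} => (z.1 : M)) hxy
  obtain ⟨P, hPs, hPc, hPm, hPx, hPB, hPT⟩ := exists_family (K.mem_of_strong _ _ hR).2
    (hLS.trans_lt hlt) {x : R | (x : M) ∈ Q₀} (by rw [hBc]; exact hLS) (by rw [hBc]; exact hlt)
  have hRe : K.StrongEmb R.subtype := strong_subtype hR
  let S : (#R).ord.ToType → L.Substructure M := fun i => (P i).map R.subtype.toHom
  have hSs : ∀ i, K.Strong M (S i) := fun i => hRe.map (hPs i)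
  have hSP : ∀ i, #(S i) = #(P i) := fun i => mk_map_eq R.subtype (P i)
  have hSc : ∀ i, #(S i) < c := by
    intro i
    rw [← hRc, hSP]
    exact hPc i
  have hSm : ∀ i j, i ≤ j → S i ≤ S j := fun i j hij => Substructure.monotone_map (hPm i j hij)
  have hQS : ∀ i, Q₀ ≤ S i := by
    intro i x hx
    exact ⟨⟨x, hQR hx⟩, hPB i hx, rfl⟩
  have hSR : ∀ i, S i ≤ R := by
    rintro i _ ⟨y, _, rfl⟩
    exact y.2
  choose d hd hed using fun i => ih (#(S i)) (hSc i) (S i) rfl (hSs i) (hQS i)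
  let step : (i : (#R).ord.ToType) → ((j : (#R).ord.ToType) → j < i →
      (K.clOver f₁ a₁ (S j) ≃[L] K.clOver f₂ a₂ (S j))) →
      (K.clOver f₁ a₁ (S i) ≃[L] K.clOver f₂ a₂ (S i)) := fun i g =>
    if h : ∃ e ∈ K.Isos f₁ a₁ f₂ a₂ (S i), Extends e₀ e ∧
      ∀ (j : (#R).ord.ToType) (hj : j < i), Extends (g j hj) e then h.choose else d i
  let E : (i : (#R).ord.ToType) → (K.clOver f₁ a₁ (S i) ≃[L] K.clOver f₂ a₂ (S i)) :=
    WellFounded.fix wellFounded_lt step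
  have hE : ∀ i, E i = step i fun j _ => E j := fun i => WellFounded.fix_eq wellFounded_lt step i
  have key : ∀ i, E i ∈ K.Isos f₁ a₁ f₂ a₂ (S i) ∧ Extends e₀ (E i) ∧
      ∀ j < i, Extends (E j) (E i) := by
    intro i
    induction i using WellFoundedLT.induction with
    | ind i ihi =>
    have hex : ∃ e ∈ K.Isos f₁ a₁ f₂ a₂ (S i), Extends e₀ e ∧
        ∀ (j : (#R).ord.ToType) (_ : j < i), Extends (E j) e := by
      by_cases hmin : ∃ j, j < i
      · have : Nonempty {j // j < i} := by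
          obtain ⟨j, hj⟩ := hmin
          exact ⟨⟨j, hj⟩⟩
        obtain ⟨hTs, u, hu, hue⟩ := glue_chain hK hf₁ hf₂ (fun j : {j // j < i} => S j.1)
          (fun j => hSs j.1) (fun j k hjk => hSm j.1 k.1 hjk) (fun j => E j.1)
          (fun j => (ihi j.1 j.2).1) (by
            intro j k hjk
            rcases eq_or_lt_of_le hjk with h | h
            · subst h
              exact Extends.rfl' _
            · exact (ihi k.1 k.2).2.2 j.1 h)
        have hTi : sSup (Set.range fun j : {j // j < i} => S j.1) ≤ S i := by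
          apply sSup_le
          rintro _ ⟨j, rfl⟩
          exact hSm _ _ j.2.le
        have hTc : #(sSup (Set.range fun j : {j // j < i} => S j.1) : L.Substructure M) =
            #(S i) := by
          apply le_antisymm
          · exact Cardinal.mk_le_mk_of_subset hTi
          · rw [hSP]
            refine (hPT i {x : R | (x : M) ∈
              (sSup (Set.range fun j : {j // j < i} => S j.1) : L.Substructure M)} hmin ?_).trans ?_
            · intro j hj x hx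
              have hlej : S j ≤ sSup (Set.range fun j : {j // j < i} => S j.1) :=
                le_sSup ⟨⟨j, hj⟩, rfl⟩
              exact hlej ⟨x, hx, rfl⟩
            · refine Cardinal.mk_le_of_injective (f := fun x : {x : R | (x : M) ∈
                (sSup (Set.range fun j : {j // j < i} => S j.1) : L.Substructure M)} =>
                (⟨x.1.1, x.2⟩ :
                  (sSup (Set.range fun j : {j // j < i} => S j.1) : L.Substructure M))) ?_
              intro x y hxy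
              apply Subtype.ext
              apply Subtype.ext
              exact congrArg (fun z :
                (sSup (Set.range fun j : {j // j < i} => S j.1) : L.Substructure M) => (z : M)) hxy
        obtain ⟨j₀, hj₀⟩ := hmin
        have hle₀ : S j₀ ≤ sSup (Set.range fun j : {j // j < i} => S j.1) :=
          le_sSup ⟨⟨j₀, hj₀⟩, rfl⟩
        have h0u : Extends e₀ u :=
          Extends.trans (hQS j₀) (ihi j₀ hj₀).2.1 (hue ⟨j₀, hj₀⟩)
        obtain ⟨e, he, hue'⟩ := extend_step hK hAP hf₁ hf₂ hTs (hSs i) hTi X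
          (hext _ _ hTs (hSs i) hTc ((hQS j₀).trans hle₀) hTi) hu (hd i) (by
            intro x y hx hxy
            have hx₀ := hX _ hx
            rw [← h0u ⟨x, hx₀⟩ x rfl, ← hed i ⟨x, hx₀⟩ y hxy])
        refine ⟨e, he, Extends.trans ((hQS j₀).trans hle₀) h0u hue', ?_⟩
        intro j hj
        have hlej : S j ≤ sSup (Set.range fun j : {j // j < i} => S j.1) :=
          le_sSup ⟨⟨j, hj⟩, rfl⟩
        exact Extends.trans hlej (hue ⟨j, hj⟩) hue'
      · exact ⟨d i, hd i, hed i, fun j hj => absurd ⟨j, hj⟩ hmin⟩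
    have h1 : E i = hex.choose := by
      rw [hE i]
      exact dif_pos hex
    rw [h1]
    exact hex.choose_spec
  have hne : Nonempty (#R).ord.ToType := by
    rw [← Cardinal.mk_ne_zero_iff]
    simp only [Cardinal.mk_toType, Cardinal.card_ord]
    exact (Cardinal.aleph0_pos.trans_le (hθ.trans hlt.le)).ne'
  obtain ⟨_, u, hu, hue⟩ := glue_chain hK hf₁ hf₂ S hSs hSm E (fun i => (key i).1) (by
    intro i j hij
    rcases hij.eq_or_lt with rfl | h
    · exact Extends.rfl' _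
    · exact (key j).2.2 i h)
  have hSup : sSup (Set.range S) = R := by
    apply le_antisymm
    · apply sSup_le
      rintro _ ⟨i, rfl⟩
      exact hSR i
    · intro x hx
      obtain ⟨i, hi⟩ := hPx ⟨x, hx⟩
      exact (le_sSup ⟨i, rfl⟩ : S i ≤ sSup (Set.range S)) ⟨⟨x, hx⟩, hi, rfl⟩
  have hfin : ∀ T : L.Substructure M, T = R → (∃ e ∈ K.Isos f₁ a₁ f₂ a₂ T, Extends e₀ e) →
      ∃ e ∈ K.Isos f₁ a₁ f₂ a₂ R, Extends e₀ e := by
    rintro T rfl h
    exact h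
  obtain ⟨i₀⟩ := hne
  exact hfin _ hSup ⟨u, hu, Extends.trans (hQS i₀) (key i₀).2.1 (hue i₀)⟩

theorem sameType_of_small (hK : K.HasClosures) (hAP : K.Amalgamation)
    (hf₁ : K.StrongEmb f₁) (hf₂ : K.StrongEmb f₂) (hle : #M ≤ χ)
    (hsame : ∀ M₀ : L.Substructure M, K.Strong M M₀ → #M₀ ≤ χ →
      K.SameType (f₁.comp M₀.subtype) a₁ (f₂.comp M₀.subtype) a₂) : K.SameType f₁ a₁ f₂ a₂ := by
  have hM : K.Mem M := hf₁.mem_left
  have hT : #(⊤ : L.Substructure M) ≤ χ := (Cardinal.mk_subtype_le _).trans hle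
  obtain ⟨e, he⟩ := isos_nonempty hK hf₁ hf₂ (K.refl _ hM) (hsame ⊤ (K.refl _ hM) hT)
  exact sameType_of_isos hK hAP hf₁ hf₂ he

/-- Strong substructures of exact size `θ`. -/
theorem exists_exact (hM : K.Mem M) (hLS : K.LS ≤ θ) (hlt : θ < #M) (Q : K.Sml M θ) :
    ∃ R : K.Sml M θ, Q.1 ≤ R.1 ∧ #R.1 = θ := by
  have hθ : ℵ₀ ≤ θ := (ls_spec (K := K)).1.trans hLS
  obtain ⟨A, hA⟩ := Cardinal.le_mk_iff_exists_set.mp hlt.le
  obtain ⟨R, hQR, hAR⟩ := exists_ub hM hLS {Q}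
    (by rw [Cardinal.mk_singleton]; exact Cardinal.one_le_aleph0.trans hθ) A hA.le
  exact ⟨R, hQR Q rfl, le_antisymm R.2.2 (hA.ge.trans (Cardinal.mk_le_mk_of_subset hAR))⟩

end context

/-- **Extension over a base.** -/
theorem tame_of_extendsOverBase (hK : K.HasClosures) (hAP : K.Amalgamation)
    {κ θ : Cardinal.{w}} (hκ : K.LS < κ) (hκθ : κ ≤ Order.succ θ)
    (hA : ∀ χ < κ, K.LS ≤ χ → AutBound K χ θ)
    (hE : ExtendsOverBase K κ θ) : K.Tame θ := by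
  intro M N₁ N₂ _ _ _ f₁ a₁ f₂ a₂ hf₁ hf₂ hsame
  rcases le_or_gt (#M) θ with hle | hlt
  · exact sameType_of_small hK hAP hf₁ hf₂ hle hsame
  obtain ⟨Q, hQs, hQM, hQκ, hQ⟩ := hE N₁ f₁.toHom.range a₁ hf₁
  obtain ⟨χ, hLS, hχκ, hQc⟩ : ∃ χ : Cardinal.{w}, K.LS ≤ χ ∧ χ < κ ∧ #Q ≤ χ :=
    ⟨max K.LS (#Q), le_max_left _ _, max_lt hκ hQκ, le_max_right _ _⟩
  have hχθ : χ ≤ θ := Order.lt_succ_iff.mp (hχκ.trans_le hκθ)
  replace hA := hA χ hχκ hLS
  let Q₀ : K.Sml M χ := ⟨Q.comap f₁.toHom, hf₁.comap hQs hQM, by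
    refine le_trans ?_ hQc
    exact Cardinal.mk_le_of_injective (f := fun x : Q.comap f₁.toHom => (⟨f₁ x.1, x.2⟩ : Q))
      (fun x y hxy => Subtype.ext (f₁.injective (congrArg Subtype.val hxy)))⟩
  have hQ₀ : f₁ '' (Q₀.1 : Set M) = (Q : Set N₁) := by
    ext x
    constructor
    · rintro ⟨m, hm, rfl⟩
      exact hm
    · intro hx
      obtain ⟨m, rfl⟩ := hQM hx
      exact ⟨m, hx, rfl⟩
  have hX : ∀ x ∈ (K.cl (insert a₁ (Q : Set N₁)) : Set N₁), x ∈ K.clOver f₁ a₁ Q₀.1 := by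
    intro x hx
    show x ∈ K.cl (insert a₁ (f₁ '' (Q₀.1 : Set M)))
    rw [hQ₀]
    exact hx
  have hext : ∀ M₁ M₂ : L.Substructure M, K.Strong M M₁ → K.Strong M M₂ → θ ≤ #M₁ → #M₁ = #M₂ →
      Q₀.1 ≤ M₁ → M₁ ≤ M₂ →
      ∀ g ∈ Auts (K.clOver f₁ a₁ M₁) (insert a₁ (f₁ '' (M₁ : Set M)) ∪
          (K.cl (insert a₁ (Q : Set N₁)) : Set N₁)),
        ∃ g' ∈ Auts (K.clOver f₁ a₁ M₂) (insert a₁ (f₁ '' (M₂ : Set M))),
          ∀ (x : K.clOver f₁ a₁ M₁) (y : K.clOver f₁ a₁ M₂), (x : N₁) = y →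
            (g x : N₁) = g' y := by
    intro M₁ M₂ h₁ h₂ hθ₁ hc hQ₁ h₁₂
    refine hQ (M₁.map f₁.toHom) (M₂.map f₁.toHom) (hf₁.map h₁) (hf₁.map h₂) ?_ ?_ ?_
      (Substructure.monotone_map h₁₂) ?_
    · rw [mk_map_eq]
      exact hθ₁
    · rw [mk_map_eq, mk_map_eq]
      exact hc
    · intro x hx
      have hx' : x ∈ f₁ '' (Q₀.1 : Set M) := by
        rw [hQ₀]
        exact hx
      obtain ⟨m, hm, rfl⟩ := hx'
      exact ⟨m, hQ₁ hm, rfl⟩
    · rintro _ ⟨m, _, rfl⟩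
      exact ⟨m, rfl⟩
  obtain ⟨e₀, _, he₀⟩ := exists_pers (f₁ := f₁) (a₁ := a₁) (f₂ := f₂) (a₂ := a₂)
    hK hAP hLS hχθ hf₁ hf₂ Q₀ (isos_le_of_bound hA hf₁ Q₀) Set.univ (by
    intro R hR
    obtain ⟨e, he⟩ := isos_nonempty hK hf₁ hf₂ R.2.1 (hsame R.1 R.2.1 R.2.2)
    obtain ⟨e', he', hext⟩ := isos_restrict hK hAP hf₁ hf₂ Q₀.2.1 R.2.1 hR he
    exact ⟨e, he, e', he', trivial, hext⟩)
  obtain ⟨R₀, hQR₀, hR₀⟩ := exists_exact hf₁.mem_left (hLS.trans hχθ) hlt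
    (⟨Q₀.1, Q₀.2.1, Q₀.2.2.trans hχθ⟩ : K.Sml M θ)
  obtain ⟨e₁, he₁, he₀₁⟩ := he₀.2 R₀ hQR₀
  obtain ⟨u, hu, _⟩ := core hK hAP (hLS.trans hχθ) hf₁ hf₂ R₀.1 hR₀
    (K.cl (insert a₁ (Q : Set N₁)) : Set N₁)
    (fun x hx => clOver_mono hQR₀ (hX x hx))
    e₁ (by
      intro R hR hRc hR₀R
      obtain ⟨e', he', he₀'⟩ := he₀.2 ⟨R, hR, hRc⟩ (hQR₀.trans hR₀R)
      refine extend_step hK hAP hf₁ hf₂ R₀.2.1 hR hR₀R
        (K.cl (insert a₁ (Q : Set N₁)) : Set N₁) (hext _ _ R₀.2.1 hR hR₀.ge ?_ hQR₀ hR₀R)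
        he₁ he' ?_
      · apply le_antisymm
        · exact Cardinal.mk_le_mk_of_subset hR₀R
        · rw [hR₀]
          exact hRc
      · intro x y hx hxy
        have hx₀ := hX _ hx
        rw [← he₀₁ ⟨x, hx₀⟩ x rfl, ← he₀' ⟨x, hx₀⟩ y hxy])
    (fun M₁ M₂ h₁ h₂ hc hR₁ h₁₂ => hext M₁ M₂ h₁ h₂
      (hR₀.ge.trans (Cardinal.mk_le_mk_of_subset hR₁)) hc (hQR₀.trans hR₁) h₁₂)
    _ (⊤ : L.Substructure M) rfl (K.refl _ hf₁.mem_left) le_top
  exact sameType_of_isos hK hAP hf₁ hf₂ hu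

/-- **Extension of all automorphisms.** -/
theorem tame_of_extendsFrom (hK : K.HasClosures) (hAP : K.Amalgamation) {χ : Cardinal.{w}}
    (hLS : K.LS ≤ χ) (hE : ExtendsFrom K χ) : K.Tame χ := by
  intro M N₁ N₂ _ _ _ f₁ a₁ f₂ a₂ hf₁ hf₂ hsame
  have hM : K.Mem M := hf₁.mem_left
  rcases le_or_gt (#M) χ with hle | hlt
  · exact sameType_of_small hK hAP hf₁ hf₂ hle hsame
  obtain ⟨Q₁, _, _⟩ := exists_ub (θ := χ) hM hLS ∅ (by simp) ∅ (by simp)
  obtain ⟨Q₀, _, hQ₀⟩ := exists_exact hM hLS hlt Q₁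
  have hext : ∀ M₁ M₂ : L.Substructure M, K.Strong M M₁ → K.Strong M M₂ → #M₁ = #M₂ →
      Q₀.1 ≤ M₁ → M₁ ≤ M₂ →
      ∀ g ∈ Auts (K.clOver f₁ a₁ M₁) (insert a₁ (f₁ '' (M₁ : Set M)) ∪ ∅),
        ∃ g' ∈ Auts (K.clOver f₁ a₁ M₂) (insert a₁ (f₁ '' (M₂ : Set M))),
          ∀ (x : K.clOver f₁ a₁ M₁) (y : K.clOver f₁ a₁ M₂), (x : N₁) = y →
            (g x : N₁) = g' y := by
    intro M₁ M₂ h₁ h₂ hc hQ₁ h₁₂
    refine hE N₁ (M₁.map f₁.toHom) (M₂.map f₁.toHom) a₁ (hf₁.map h₁) (hf₁.map h₂) ?_ ?_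
      (Substructure.monotone_map h₁₂)
    · rw [mk_map_eq]
      exact hQ₀.ge.trans (Cardinal.mk_le_mk_of_subset hQ₁)
    · rw [mk_map_eq, mk_map_eq]
      exact hc
  obtain ⟨e₀, he₀⟩ := isos_nonempty hK hf₁ hf₂ Q₀.2.1 (hsame Q₀.1 Q₀.2.1 Q₀.2.2)
  obtain ⟨u, hu, _⟩ := core hK hAP hLS hf₁ hf₂ Q₀.1 hQ₀ ∅
    (fun x hx => absurd hx (Set.notMem_empty x)) e₀
    (by
      intro R hR hRc hQR
      obtain ⟨e', he'⟩ := isos_nonempty hK hf₁ hf₂ hR (hsame R hR hRc)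
      refine extend_step hK hAP hf₁ hf₂ Q₀.2.1 hR hQR ∅
        (hext _ _ Q₀.2.1 hR (le_antisymm (Cardinal.mk_le_mk_of_subset hQR) ?_) le_rfl hQR)
        he₀ he' (fun x y hx => absurd hx (Set.notMem_empty _))
      rw [hQ₀]
      exact hRc)
    hext
    _ (⊤ : L.Substructure M) rfl (K.refl _ hM) le_top
  exact sameType_of_isos hK hAP hf₁ hf₂ hu

end Pool.Agent.H81.FE
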