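import Pool.Agent.H81.FB.Main

set_option autoImplicit false

/-!
# Resolutions indexed by cardinals, and gluing along them
-/

open FirstOrder FirstOrder.Language Cardinal

namespace Pool.Agent.H81.FE

universe w

open Pool.Agent.H85.AECT Pool.Agent.H85.AECT.AEC Pool.Agent.H81.FB

variable {L : FirstOrder.Language.{w, w}} {K : AEC L}

/-- A model of size greater than `LS` is the union of an increasing family of smaller strong
substructures containing a given small set, each of which is not larger than the union of the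
preceding ones. -/
theorem exists_family {M : Type w} [L.Structure M] (hM : K.Mem M) (hc : K.LS < #M) (B : Set M)
    (hLB : K.LS ≤ #B) (hB : #B < #M) :
    ∃ P : (#M).ord.ToType → L.Substructure M, (∀ i, K.Strong M (P i)) ∧ (∀ i, #(P i) < #M) ∧
      (∀ i j, i ≤ j → P i ≤ P j) ∧ (∀ x, ∃ i, x ∈ P i) ∧ (∀ i, B ⊆ P i) ∧
      ∀ (i : (#M).ord.ToType) (T : Set M), (∃ j, j < i) → (∀ j < i, (P j : Set M) ⊆ T) →
        #(P i) ≤ #T := by
  classical
  have hLS0 : ℵ₀ ≤ K.LS := (ls_spec (K := K)).1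
  have hinf : ℵ₀ ≤ #M := hLS0.trans hc.le
  obtain ⟨e⟩ : Nonempty ((#M).ord.ToType ≃ M) := Cardinal.eq.mp (by simp)
  choose ub hub using fun A : Set M => (ls_spec (K := K)).2.2 M hM A
  let step : (i : (#M).ord.ToType) → ((j : (#M).ord.ToType) → j < i → L.Substructure M) →
      L.Substructure M :=
    fun i g => ub ((B ∪ e '' Set.Iic i) ∪ ⋃ j : Set.Iio i, (g j.1 j.2 : Set M))
  let P : (#M).ord.ToType → L.Substructure M := WellFounded.fix wellFounded_lt step
  have hP : ∀ i, P i = ub ((B ∪ e '' Set.Iic i) ∪ ⋃ j : Set.Iio i, (P j.1 : Set M)) := fun i =>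
    WellFounded.fix_eq wellFounded_lt step i
  have hPs : ∀ i, K.Strong M (P i) := by
    intro i
    rw [hP i]
    exact (hub _).1
  have hPsub : ∀ i, (B ∪ e '' Set.Iic i) ∪ (⋃ j : Set.Iio i, (P j.1 : Set M)) ⊆ (P i : Set M) := by
    intro i
    conv_rhs => rw [hP i]
    exact (hub _).2.1
  have hPmono : ∀ i j : (#M).ord.ToType, i ≤ j → P i ≤ P j := by
    intro i j hij
    rcases hij.eq_or_lt with rfl | h
    · exact le_rfl
    · intro x hx
      exact hPsub j (Or.inr (Set.mem_iUnion.mpr ⟨⟨i, h⟩, hx⟩))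
  have hPc : ∀ i, #(P i) ≤ #(Set.Iic i) + (#B + K.LS) := by
    intro i
    induction i using WellFoundedLT.induction with
    | ind i ih =>
    rw [hP i]
    refine (hub _).2.2.trans ?_
    have hLSle : K.LS ≤ #(Set.Iic i) + (#B + K.LS) :=
      (self_le_add_left _ _).trans (self_le_add_left _ _)
    have hIic : ℵ₀ ≤ #(Set.Iic i) + (#B + K.LS) := hLS0.trans hLSle
    have hBle : #B ≤ #(Set.Iic i) + (#B + K.LS) :=
      (self_le_add_right _ _).trans (self_le_add_left _ _)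
    have h1 : #(⋃ j : Set.Iio i, (P j.1 : Set M)) ≤ #(Set.Iic i) + (#B + K.LS) := by
      apply mk_union_le_of hIic
      · exact (Cardinal.mk_le_mk_of_subset Set.Iio_subset_Iic_self).trans (self_le_add_right _ _)
      · intro j
        refine (ih j.1 j.2).trans (add_le_add ?_ le_rfl)
        exact Cardinal.mk_le_mk_of_subset (Set.Iic_subset_Iic.mpr (le_of_lt j.2))
    have h0 : #(B ∪ e '' Set.Iic i : Set M) ≤ #(Set.Iic i) + (#B + K.LS) := by
      refine (Cardinal.mk_union_le _ _).trans ?_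
      exact (add_le_add hBle (Cardinal.mk_image_le.trans (self_le_add_right _ _))).trans
        (Cardinal.add_eq_self hIic).le
    have h2 : #((B ∪ e '' Set.Iic i) ∪ ⋃ j : Set.Iio i, (P j.1 : Set M) : Set M) ≤
        #(Set.Iic i) + (#B + K.LS) := by
      refine (Cardinal.mk_union_le _ _).trans ?_
      exact (add_le_add h0 h1).trans (Cardinal.add_eq_self hIic).le
    exact (add_le_add h2 hLSle).trans (Cardinal.add_eq_self hIic).le
  have hIic : ∀ i : (#M).ord.ToType, #(Set.Iic i) < #M := by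
    intro i
    have h1 : #(Set.Iio i) < #M := by simpa using Cardinal.mk_Iio_lt i
    have h2 : Set.Iic i = insert i (Set.Iio i) := (Set.Iio_insert).symm
    rw [h2]
    exact Cardinal.mk_insert_le.trans_lt
      (Cardinal.add_lt_of_lt hinf h1 (Cardinal.one_lt_aleph0.trans_le hinf))
  refine ⟨P, hPs, fun i => (hPc i).trans_lt
    (Cardinal.add_lt_of_lt hinf (hIic i) (Cardinal.add_lt_of_lt hinf hB hc)), hPmono, ?_, ?_, ?_⟩
  · intro x
    exact ⟨e.symm x, hPsub _ (Or.inl (Or.inr ⟨e.symm x, Set.mem_Iic.mpr le_rfl, by simp⟩))⟩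
  · intro i x hx
    exact hPsub _ (Or.inl (Or.inl hx))
  · rintro i T ⟨j₀, hj₀⟩ hT
    have hBT : #B ≤ #T := by
      apply Cardinal.mk_le_mk_of_subset
      intro x hx
      exact hT j₀ hj₀ (hPsub _ (Or.inl (Or.inl hx)))
    have hLT : K.LS ≤ #T := hLB.trans hBT
    have hT0 : ℵ₀ ≤ #T := hLS0.trans hLT
    have hIT : #(Set.Iio i) ≤ #T := by
      have h1 : e '' Set.Iio i ⊆ T := by
        rintro _ ⟨j, hj, rfl⟩
        exact hT j hj (hPsub _ (Or.inl (Or.inr ⟨j, Set.mem_Iic.mpr le_rfl, rfl⟩)))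
      rw [← Cardinal.mk_image_eq (s := Set.Iio i) e.injective]
      exact Cardinal.mk_le_mk_of_subset h1
    have h2 : Set.Iic i = insert i (Set.Iio i) := (Set.Iio_insert).symm
    have h3 : #(Set.Iic i) ≤ #T := by
      rw [h2]
      refine Cardinal.mk_insert_le.trans ?_
      exact (add_le_add hIT (Cardinal.one_le_aleph0.trans hT0)).trans
        (Cardinal.add_eq_self hT0).le
    refine (hPc i).trans ?_
    refine (add_le_add h3 ((add_le_add hBT hLT).trans (Cardinal.add_eq_self hT0).le)).trans ?_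
    exact (Cardinal.add_eq_self hT0).le

section context

variable {M N₁ N₂ : Type w} [L.Structure M] [L.Structure N₁] [L.Structure N₂]
  {f₁ : M ↪[L] N₁} {a₁ : N₁} {f₂ : M ↪[L] N₂} {a₂ : N₂} {χ θ : Cardinal.{w}}

/-- Coherent isomorphisms over a chain of models glue. -/
theorem glue_chain (hK : K.HasClosures) (hf₁ : K.StrongEmb f₁) (hf₂ : K.StrongEmb f₂)
    {ι : Type*} [LinearOrder ι] [Nonempty ι] (Q : ι → L.Substructure M)
    (hQs : ∀ i, K.Strong M (Q i)) (hmono : ∀ i j, i ≤ j → Q i ≤ Q j)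
    (e : (i : ι) → (K.clOver f₁ a₁ (Q i) ≃[L] K.clOver f₂ a₂ (Q i)))
    (he : ∀ i, e i ∈ K.Isos f₁ a₁ f₂ a₂ (Q i))
    (hcoh : ∀ i j, i ≤ j → Extends (e i) (e j)) :
    K.Strong M (sSup (Set.range Q)) ∧
    ∃ u ∈ K.Isos f₁ a₁ f₂ a₂ (sSup (Set.range Q)), ∀ i, Extends (e i) u := by
  have hCne : (Set.range Q).Nonempty := Set.range_nonempty _
  have hCch : IsChain (· ≤ ·) (Set.range Q) := by
    rintro _ ⟨i, rfl⟩ _ ⟨j, rfl⟩ _
    rcases le_total i j with h | h
    · exact Or.inl (hmono _ _ h)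
    · exact Or.inr (hmono _ _ h)
  refine ⟨?_, ?_⟩
  · apply K.smooth M _ hCne hCch
    rintro _ ⟨i, rfl⟩
    exact hQs i
  · apply glue Q (sSup (Set.range Q)) (fun i => le_sSup ⟨i, rfl⟩) hmono
    · intro m hm
      rw [Substructure.mem_sSup_of_directedOn hCne hCch.directedOn] at hm
      obtain ⟨_, ⟨i, rfl⟩, hi⟩ := hm
      exact ⟨i, hi⟩
    · intro x hx
      obtain ⟨_, ⟨i, rfl⟩, hi⟩ := exists_mem_clOver_of_chain hK hf₁ _ hCne hCch
        (by rintro _ ⟨i, rfl⟩; exact hQs i) hx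
      exact ⟨i, hi⟩
    · intro x hx
      obtain ⟨_, ⟨i, rfl⟩, hi⟩ := exists_mem_clOver_of_chain hK hf₂ _ hCne hCch
        (by rintro _ ⟨i, rfl⟩; exact hQs i) hx
      exact ⟨i, hi⟩
    · exact he
    · exact hcoh

/-- Correction of an isomorphism by an extended automorphism. -/
theorem extend_step (hK : K.HasClosures) (hAP : K.Amalgamation)
    (hf₁ : K.StrongEmb f₁) (hf₂ : K.StrongEmb f₂) {M₁ M₂ : L.Substructure M}
    (h₁ : K.Strong M M₁) (h₂ : K.Strong M M₂) (h12 : M₁ ≤ M₂) (X : Set N₁)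
    (hext : ∀ g ∈ Auts (K.clOver f₁ a₁ M₁) (insert a₁ (f₁ '' (M₁ : Set M)) ∪ X),
      ∃ g' ∈ Auts (K.clOver f₁ a₁ M₂) (insert a₁ (f₁ '' (M₂ : Set M))),
        ∀ (x : K.clOver f₁ a₁ M₁) (y : K.clOver f₁ a₁ M₂), (x : N₁) = y → (g x : N₁) = g' y)
    {e : K.clOver f₁ a₁ M₁ ≃[L] K.clOver f₂ a₂ M₁} (he : e ∈ K.Isos f₁ a₁ f₂ a₂ M₁)
    {e' : K.clOver f₁ a₁ M₂ ≃[L] K.clOver f₂ a₂ M₂} (he' : e' ∈ K.Isos f₁ a₁ f₂ a₂ M₂)
    (hagree : ∀ (x : K.clOver f₁ a₁ M₁) (y : K.clOver f₁ a₁ M₂), (x : N₁) ∈ X → (x : N₁) = y →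
      (e x : N₂) = e' y) :
    ∃ e'' ∈ K.Isos f₁ a₁ f₂ a₂ M₂, Extends e e'' := by
  obtain ⟨r, hr, hre⟩ := isos_restrict hK hAP hf₁ hf₂ h₁ h₂ h12 he'
  have hg : r.symm.comp e ∈ Auts (K.clOver f₁ a₁ M₁) (insert a₁ (f₁ '' (M₁ : Set M)) ∪ X) := by
    apply comp_mem_auts hr he
    intro x hx
    apply Subtype.ext
    rw [hagree x ⟨x, clOver_mono h12 x.2⟩ hx rfl, hre x ⟨x, clOver_mono h12 x.2⟩ rfl]
  obtain ⟨g', hg', hgg⟩ := hext _ hg
  refine ⟨e'.comp g', ⟨?_, ?_⟩, ?_⟩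
  · intro m hm x hx
    have h3 : g' x = x := hg' x (Or.inr ⟨m, hm, hx.symm⟩)
    show (e' (g' x) : N₂) = f₂ m
    rw [h3]
    exact he'.1 m hm x hx
  · intro x hx
    have h3 : g' x = x := hg' x (Or.inl hx)
    show (e' (g' x) : N₂) = a₂
    rw [h3]
    exact he'.2 x hx
  · intro x y hxy
    have h4 := hgg x y hxy
    show (e x : N₂) = e' (g' y)
    rw [← hre (r.symm (e x)) (g' y) h4, Language.Equiv.apply_symm_apply]

end context

end Pool.Agent.H81.FE
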